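import Mathlib

set_option autoImplicit false

namespace Pool.Agent.H41FC

/-- the wreath product of `G` and `ZMod p` -/
@[ext] structure Wr (p : ℕ) (G : Type*) where
  /-- the top component -/
  t : ZMod p
  /-- the base component -/
  f : ZMod p → G

section wr

variable {p : ℕ} {G : Type*} [Group G]

instance : Mul (Wr p G) := ⟨fun a b => ⟨a.t + b.t, fun i => a.f i * b.f (i + a.t)⟩⟩
instance : One (Wr p G) := ⟨⟨0, fun _ => 1⟩⟩
instance : Inv (Wr p G) := ⟨fun a => ⟨-a.t, fun i => (a.f (i - a.t))⁻¹⟩⟩

lemma mul_t (a b : Wr p G) : (a * b).t = a.t + b.t := rfl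
lemma mul_f (a b : Wr p G) (i : ZMod p) : (a * b).f i = a.f i * b.f (i + a.t) := rfl
lemma one_t : (1 : Wr p G).t = 0 := rfl
lemma one_f (i : ZMod p) : (1 : Wr p G).f i = 1 := rfl
lemma inv_t (a : Wr p G) : (a⁻¹).t = -a.t := rfl
lemma inv_f (a : Wr p G) (i : ZMod p) : (a⁻¹).f i = (a.f (i - a.t))⁻¹ := rfl

instance : Group (Wr p G) := Group.ofLeftAxioms
  (by
    intro a b c
    refine Wr.ext ?_ ?_
    · simp only [mul_t, add_assoc]
    · funext i
      simp only [mul_t, mul_f, mul_assoc, add_assoc])
  (by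
    intro a
    refine Wr.ext ?_ ?_
    · simp only [mul_t, one_t, zero_add]
    · funext i
      simp only [mul_f, one_f, one_t, add_zero, one_mul])
  (by
    intro a
    refine Wr.ext ?_ ?_
    · simp only [mul_t, inv_t, one_t, neg_add_cancel]
    · funext i
      simp only [mul_f, inv_f, inv_t, one_f, ← sub_eq_add_neg, inv_mul_cancel])

instance [NeZero p] [Finite G] : Finite (Wr p G) :=
  Finite.of_injective (fun a : Wr p G => (a.t, a.f)) (by
    intro a b h
    simp only [Prod.mk.injEq] at h
    exact Wr.ext h.1 h.2)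

/-- functoriality -/
def wmap {G' : Type*} [Group G'] (θ : G →* G') : Wr p G →* Wr p G' where
  toFun a := ⟨a.t, fun i => θ (a.f i)⟩
  map_one' := by
    refine Wr.ext rfl ?_
    funext i
    exact map_one θ
  map_mul' a b := by
    refine Wr.ext rfl ?_
    funext i
    exact map_mul θ _ _

/-- the twisted diagonal -/
def diag {F : Type*} [Group F] (Φ : F →* Multiplicative (ZMod p)) (s : ZMod p → F) :
    F →* Wr p F where
  toFun w := ⟨Multiplicative.toAdd (Φ w), fun i => s i * w * (s (i + Multiplicative.toAdd (Φ w)))⁻¹⟩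
  map_one' := by
    refine Wr.ext ?_ ?_
    · simp [one_t]
    · funext i
      simp [one_f]
  map_mul' a b := by
    refine Wr.ext ?_ ?_
    · simp [mul_t]
    · funext i
      simp only [mul_f, map_mul, toAdd_mul, add_assoc]
      group

variable {X : Type*}

/-- the homomorphism with given values on the generators -/
def Psi (φ : X → ZMod p) (γ : X → ZMod p → G) : FreeGroup X →* Wr p G :=
  FreeGroup.lift (fun x => ⟨φ x, γ x⟩)

/-- the degree -/
def Deg (φ : X → ZMod p) : FreeGroup X →* Multiplicative (ZMod p) :=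
  FreeGroup.lift (fun x => Multiplicative.ofAdd (φ x))

lemma Psi_t (φ : X → ZMod p) (γ : X → ZMod p → G) (w : FreeGroup X) :
    (Psi φ γ w).t = Multiplicative.toAdd (Deg φ w) := by
  let tHom : Wr p G →* Multiplicative (ZMod p) :=
    { toFun := fun a => Multiplicative.ofAdd a.t
      map_one' := rfl
      map_mul' := fun a b => rfl }
  have h : tHom.comp (Psi φ γ) = Deg φ := by
    ext x
    simp [tHom, Psi, Deg]
  have h2 := DFunLike.congr_fun h w
  exact congrArg Multiplicative.toAdd h2

lemma wmap_Psi {G' : Type*} [Group G'] (θ : G →* G') (φ : X → ZMod p) (γ : X → ZMod p → G)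
    (w : FreeGroup X) : wmap θ (Psi φ γ w) = Psi φ (fun x i => θ (γ x i)) w := by
  have h : (wmap θ).comp (Psi φ γ) = Psi φ (fun x i => θ (γ x i)) := by
    apply FreeGroup.ext_hom
    intro x
    simp only [MonoidHom.comp_apply, Psi, FreeGroup.lift_apply_of]
    rfl
  exact DFunLike.congr_fun h w

lemma wmap_f {G' : Type*} [Group G'] (θ : G →* G') (a : Wr p G) (i : ZMod p) :
    (wmap θ a).f i = θ (a.f i) := rfl

end wr

section tree

variable {p : ℕ} [NeZero p] {X : Type*}

open Classical in
/-- the values: trivial on the edges of the tree -/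
noncomputable def gam (p : ℕ) (x0 x : X) (i : ZMod p) : FreeGroup (X × ZMod p) :=
  if x = x0 ∧ i ≠ -1 then 1 else FreeGroup.of (x, i)

/-- the coset representatives -/
def rep (x0 : X) (i : ZMod p) : FreeGroup X := FreeGroup.of x0 ^ i.val

/-- the embedding of the subgroup -/
def rho (φ : X → ZMod p) (x0 : X) : FreeGroup (X × ZMod p) →* FreeGroup X :=
  FreeGroup.lift (fun y => rep x0 y.2 * FreeGroup.of y.1 * (rep x0 (y.2 + φ y.1))⁻¹)

lemma rho_gam (hp : 1 < p) (φ : X → ZMod p) (x0 : X) (h0 : φ x0 = 1) (x : X) (i : ZMod p) :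
    rho φ x0 (gam p x0 x i) = rep x0 i * FreeGroup.of x * (rep x0 (i + φ x))⁻¹ := by
  unfold gam
  split_ifs with h
  · obtain ⟨rfl, hi⟩ := h
    rw [map_one, h0]
    have hlt : i.val + 1 < p := by
      have h1 := ZMod.val_lt i
      by_contra hcon
      have h2 : i.val = p - 1 := by omega
      apply hi
      have h3 : ((i.val + 1 : ℕ) : ZMod p) = 0 := by
        have : i.val + 1 = p := by omega
        rw [this]
        exact ZMod.natCast_self p
      rw [Nat.cast_add, ZMod.natCast_zmod_val, Nat.cast_one] at h3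
      exact eq_neg_of_add_eq_zero_left h3
    have hval : (i + 1).val = i.val + 1 := by
      rw [ZMod.val_add, ZMod.val_one'' (by omega), Nat.mod_eq_of_lt hlt]
    unfold rep
    rw [hval, pow_succ]
    group
  · simp only [rho, FreeGroup.lift_apply_of]

lemma rho_Psi (hp : 1 < p) (φ : X → ZMod p) (x0 : X) (h0 : φ x0 = 1) (w : FreeGroup X)
    (i : ZMod p) : rho φ x0 ((Psi φ (gam p x0) w).f i) =
      rep x0 i * w * (rep x0 (i + Multiplicative.toAdd (Deg φ w)))⁻¹ := by
  have h : (wmap (rho φ x0)).comp (Psi φ (gam p x0)) = diag (Deg φ) (rep x0) := by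
    apply FreeGroup.ext_hom
    intro x
    rw [MonoidHom.comp_apply, wmap_Psi]
    refine Wr.ext ?_ ?_
    · rw [Psi_t]
      rfl
    · funext i
      simp only [Psi, FreeGroup.lift_apply_of]
      rw [rho_gam hp φ x0 h0]
      simp only [diag, Deg, MonoidHom.coe_mk, OneHom.coe_mk, FreeGroup.lift_apply_of, toAdd_ofAdd]
  have h2 := DFunLike.congr_fun h w
  have h3 := congrFun (congrArg Wr.f h2) i
  exact h3

end tree

section len

variable {p : ℕ} [NeZero p] {X : Type*}

open Classical in
lemma norm_gam (x0 x : X) (i : ZMod p) : (gam p x0 x i).norm ≤ 1 := by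
  unfold gam
  split_ifs
  · simp
  · simp

open Classical in
lemma norm_one_letter (φ : X → ZMod p) (x0 : X) (a : X × Bool) (i : ZMod p) :
    ((Psi φ (gam p x0) (FreeGroup.mk [a])).f i).norm ≤ 1 := by
  obtain ⟨x, b⟩ := a
  cases b
  · have h : (FreeGroup.mk [(x, false)] : FreeGroup X) = (FreeGroup.of x)⁻¹ := rfl
    rw [h, map_inv, inv_f, FreeGroup.norm_inv_eq]
    simp only [Psi, FreeGroup.lift_apply_of]
    exact norm_gam _ _ _
  · have h : (FreeGroup.mk [(x, true)] : FreeGroup X) = FreeGroup.of x := rfl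
    rw [h]
    simp only [Psi, FreeGroup.lift_apply_of]
    exact norm_gam _ _ _

open Classical in
lemma tree_letter (hp : 1 < p) (φ : X → ZMod p) (x0 : X) (b : Bool) : ∃ i : ZMod p,
    (Psi φ (gam p x0) (FreeGroup.mk [(x0, b)])).f i = 1 := by
  have h01 : (0 : ZMod p) ≠ -1 := by
    intro h
    have h1 : (1 : ZMod p) = 0 := by
      have := congrArg (fun z : ZMod p => z + 1) h
      simpa using this
    have h2 : (1 : ZMod p).val = 1 := ZMod.val_one'' (by omega)
    rw [h1, ZMod.val_zero] at h2
    omega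
  have hg : gam p x0 x0 0 = 1 := by
    unfold gam
    rw [if_pos ⟨rfl, h01⟩]
  cases b
  · have h : (FreeGroup.mk [(x0, false)] : FreeGroup X) = (FreeGroup.of x0)⁻¹ := rfl
    refine ⟨φ x0, ?_⟩
    rw [h, map_inv, inv_f]
    simp only [Psi, FreeGroup.lift_apply_of, sub_self]
    rw [hg, inv_one]
  · have h : (FreeGroup.mk [(x0, true)] : FreeGroup X) = FreeGroup.of x0 := rfl
    refine ⟨0, ?_⟩
    rw [h]
    simp only [Psi, FreeGroup.lift_apply_of]
    exact hg

open Classical in
lemma len_le (φ : X → ZMod p) (x0 : X) (L : List (X × Bool)) : ∀ i : ZMod p,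
    ((Psi φ (gam p x0) (FreeGroup.mk L)).f i).norm ≤ L.length := by
  induction L with
  | nil =>
    intro i
    have h : (FreeGroup.mk ([] : List (X × Bool)) : FreeGroup X) = 1 := rfl
    rw [h, map_one, one_f]
    simp
  | cons a L ih =>
    intro i
    have h : (FreeGroup.mk (a :: L) : FreeGroup X) = FreeGroup.mk [a] * FreeGroup.mk L := rfl
    rw [h, map_mul, mul_f]
    refine (FreeGroup.norm_mul_le _ _).trans ?_
    have h1 := norm_one_letter φ x0 a i
    have h2 := ih (i + (Psi φ (gam p x0) (FreeGroup.mk [a])).t)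
    rw [List.length_cons]
    omega

open Classical in
lemma len_lt (hp : 1 < p) (φ : X → ZMod p) (x0 : X) (L : List (X × Bool)) :
    x0 ∈ L.map Prod.fst → ∃ i : ZMod p,
    ((Psi φ (gam p x0) (FreeGroup.mk L)).f i).norm + 1 ≤ L.length := by
  induction L with
  | nil => intro h; simp at h
  | cons a L ih =>
    intro hmem
    have h : (FreeGroup.mk (a :: L) : FreeGroup X) = FreeGroup.mk [a] * FreeGroup.mk L := rfl
    rcases List.mem_cons.1 hmem with h1 | h1
    · obtain ⟨x, b⟩ := a
      simp only at h1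
      subst h1
      obtain ⟨i, hi⟩ := tree_letter hp φ x0 b
      refine ⟨i, ?_⟩
      rw [h, map_mul, mul_f, hi, one_mul, List.length_cons]
      have h2 := len_le φ x0 L (i + (Psi φ (gam p x0) (FreeGroup.mk [(x0, b)])).t)
      omega
    · obtain ⟨i, hi⟩ := ih h1
      refine ⟨i - (Psi φ (gam p x0) (FreeGroup.mk [a])).t, ?_⟩
      rw [h, map_mul, mul_f, sub_add_cancel]
      have h2 := FreeGroup.norm_mul_le
        ((Psi φ (gam p x0) (FreeGroup.mk [a])).f (i - (Psi φ (gam p x0) (FreeGroup.mk [a])).t))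
        ((Psi φ (gam p x0) (FreeGroup.mk L)).f i)
      have h3 := norm_one_letter φ x0 a (i - (Psi φ (gam p x0) (FreeGroup.mk [a])).t)
      rw [List.length_cons]
      omega

end len

/-- separated by a finite quotient -/
def Sep {X : Type*} (u v : FreeGroup X) : Prop :=
  ∃ (Q : Type) (_ : Group Q) (_ : Finite Q) (ψ : FreeGroup X →* Q), ¬ IsConj (ψ u) (ψ v)

lemma Sep.symm {X : Type*} {u v : FreeGroup X} (h : Sep u v) : Sep v u := by
  obtain ⟨Q, h1, h2, ψ, h3⟩ := h
  exact ⟨Q, h1, h2, ψ, fun h => h3 h.symm⟩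

open Classical in
/-- the reduction step -/
lemma step {X : Type*} {p : ℕ} [NeZero p] (hp : 1 < p) (φ : X → ZMod p) (x0 : X)
    (h0 : φ x0 = 1) (u v : FreeGroup X) (hu : Deg φ u = 1) (hv : Deg φ v = 1)
    (hmem : x0 ∈ u.toWord.map Prod.fst) (huv : ¬ IsConj u v)
    (IH : ∀ a b : FreeGroup (X × ZMod p), a.norm + b.norm < u.norm + v.norm →
      ¬ IsConj a b → Sep a b) : Sep u v := by
  set c := Psi φ (gam p x0) with hc
  obtain ⟨i0, hi0⟩ := len_lt hp φ x0 u.toWord hmem
  rw [FreeGroup.mk_toWord, ← hc] at hi0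
  have hnc : ∀ i j, ¬ IsConj ((c u).f i) ((c v).f j) := by
    intro i j hcon
    apply huv
    have h1 := MonoidHom.map_isConj (rho φ x0) hcon
    rw [hc, rho_Psi hp φ x0 h0, rho_Psi hp φ x0 h0, hu, hv, toAdd_one, add_zero, add_zero] at h1
    have h2 : IsConj u (rep x0 i * u * (rep x0 i)⁻¹) := isConj_iff.2 ⟨rep x0 i, rfl⟩
    have h3 : IsConj v (rep x0 j * v * (rep x0 j)⁻¹) := isConj_iff.2 ⟨rep x0 j, rfl⟩
    exact (h2.trans h1).trans h3.symm
  have hlv : ∀ j, ((c v).f j).norm ≤ v.norm := by
    intro j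
    have := len_le φ x0 v.toWord j
    rwa [FreeGroup.mk_toWord] at this
  have hS : ∀ j : ZMod p, Sep ((c u).f i0) ((c v).f j) := by
    intro j
    refine IH _ _ ?_ (hnc i0 j)
    have h1 := hlv j
    have h2 : ((c u).f i0).norm + 1 ≤ u.norm := hi0
    omega
  choose Q iQ fQ ψ hψ using hS
  let θ : FreeGroup (X × ZMod p) →* (∀ j, Q j) := MonoidHom.pi ψ
  refine ⟨Wr p (∀ j, Q j), inferInstance, inferInstance, (wmap θ).comp c, ?_⟩
  intro hcon
  obtain ⟨g, hg⟩ := isConj_iff.1 hcon
  have hg2 : g * (wmap θ (c u)) = (wmap θ (c v)) * g := by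
    rw [MonoidHom.comp_apply, MonoidHom.comp_apply] at hg
    rw [← hg]; group
  have ht : (wmap θ (c v)).t = 0 := by
    change (c v).t = 0
    rw [hc, Psi_t, hv]
    rfl
  have hf := congrFun (congrArg Wr.f hg2) (i0 - g.t)
  rw [mul_f, mul_f, sub_add_cancel, ht, add_zero, wmap_f, wmap_f] at hf
  have hj := congrFun hf (i0 - g.t)
  rw [Pi.mul_apply, Pi.mul_apply] at hj
  apply hψ (i0 - g.t)
  refine isConj_iff.2 ⟨g.f (i0 - g.t) (i0 - g.t), ?_⟩
  have e1 : θ ((c u).f i0) (i0 - g.t) = ψ (i0 - g.t) ((c u).f i0) := rfl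
  have e2 : θ ((c v).f (i0 - g.t)) (i0 - g.t) = ψ (i0 - g.t) ((c v).f (i0 - g.t)) := rfl
  rw [e1, e2] at hj
  rw [hj]
  group

/-- the exponent sum -/
noncomputable def ex {X : Type*} (x : X) : FreeGroup X →* Multiplicative ℤ := by
  classical
  exact FreeGroup.lift (fun y => if y = x then Multiplicative.ofAdd 1 else 1)

lemma ex_of_self {X : Type*} (x : X) : ex x (FreeGroup.of x) = Multiplicative.ofAdd 1 := by
  classical
  simp [ex]

lemma word_pow {X : Type*} (x : X) (L : List (X × Bool)) (h : ∀ y ∈ L.map Prod.fst, y = x) :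
    ∃ n : ℤ, FreeGroup.mk L = FreeGroup.of x ^ n := by
  induction L with
  | nil => exact ⟨0, rfl⟩
  | cons a L ih =>
    obtain ⟨n, hn⟩ := ih (fun y hy => h y (List.mem_cons_of_mem _ hy))
    obtain ⟨y, b⟩ := a
    have hy : y = x := h y List.mem_cons_self
    subst hy
    have h1 : (FreeGroup.mk ((y, b) :: L) : FreeGroup X) =
      FreeGroup.mk [(y, b)] * FreeGroup.mk L := rfl
    cases b
    · have h2 : (FreeGroup.mk [(y, false)] : FreeGroup X) = (FreeGroup.of y)⁻¹ := rfl
      exact ⟨-1 + n, by rw [h1, hn, h2, zpow_add, zpow_neg_one]⟩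
    · have h2 : (FreeGroup.mk [(y, true)] : FreeGroup X) = FreeGroup.of y := rfl
      exact ⟨1 + n, by rw [h1, hn, h2, zpow_add, zpow_one]⟩

/-- the degree in terms of exponent sums, for a function supported at two letters -/
lemma Deg_eq {X : Type*} {p : ℕ} (φ : X → ZMod p) (x y : X) (hxy : x ≠ y)
    (h : ∀ z, z ≠ x → z ≠ y → φ z = 0) (w : FreeGroup X) :
    Multiplicative.toAdd (Deg φ w) =
      (Multiplicative.toAdd (ex x w) : ℤ) * φ x + (Multiplicative.toAdd (ex y w) : ℤ) * φ y := by
  classical
  let R : FreeGroup X →* Multiplicative (ZMod p) :=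
    { toFun := fun w => Multiplicative.ofAdd
        (((Multiplicative.toAdd (ex x w) : ℤ) : ZMod p) * φ x +
          ((Multiplicative.toAdd (ex y w) : ℤ) : ZMod p) * φ y)
      map_one' := by simp
      map_mul' := by
        intro a b
        rw [← ofAdd_add]
        congr 1
        have e1 : ex x (a * b) = ex x a * ex x b := map_mul _ _ _
        have e2 : ex y (a * b) = ex y a * ex y b := map_mul _ _ _
        rw [e1, e2, toAdd_mul, toAdd_mul]
        push_cast
        ring }
  have hR : Deg φ = R := by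
    apply FreeGroup.ext_hom
    intro z
    have h1 : Deg φ (FreeGroup.of z) = Multiplicative.ofAdd (φ z) := by simp [Deg]
    rw [h1]
    change _ = Multiplicative.ofAdd _
    congr 1
    simp only [ex, FreeGroup.lift_apply_of]
    by_cases hzx : z = x
    · subst hzx
      rw [if_pos rfl, if_neg hxy]
      simp
    · by_cases hzy : z = y
      · subst hzy
        rw [if_pos rfl, if_neg hzx]
        simp
      · rw [if_neg hzx, if_neg hzy, h z hzx hzy]
        simp
  have := DFunLike.congr_fun hR w
  rw [this]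
  rfl

lemma Deg_single {X : Type*} {p : ℕ} (x : X) (φ : X → ZMod p) (h1 : φ x = 1)
    (h : ∀ z, z ≠ x → φ z = 0) (w : FreeGroup X) :
    Multiplicative.toAdd (Deg φ w) = ((Multiplicative.toAdd (ex x w) : ℤ) : ZMod p) := by
  classical
  let R : FreeGroup X →* Multiplicative (ZMod p) :=
    { toFun := fun w => Multiplicative.ofAdd ((Multiplicative.toAdd (ex x w) : ℤ) : ZMod p)
      map_one' := by simp
      map_mul' := by
        intro a b
        rw [← ofAdd_add]
        congr 1
        have e1 : ex x (a * b) = ex x a * ex x b := map_mul _ _ _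
        rw [e1, toAdd_mul]
        push_cast
        ring }
  have hR : Deg φ = R := by
    apply FreeGroup.ext_hom
    intro z
    have h2 : Deg φ (FreeGroup.of z) = Multiplicative.ofAdd (φ z) := by simp [Deg]
    rw [h2]
    change _ = Multiplicative.ofAdd _
    congr 1
    simp only [ex, FreeGroup.lift_apply_of]
    by_cases hzx : z = x
    · subst hzx
      rw [if_pos rfl, h1]
      simp
    · rw [if_neg hzx, h z hzx]
      simp
  have := DFunLike.congr_fun hR w
  rw [this]
  rfl

lemma norm_inst {Y : Type*} (i1 i2 : DecidableEq Y) (w : FreeGroup Y) :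
    @FreeGroup.norm Y i1 w = @FreeGroup.norm Y i2 w := by
  rw [Subsingleton.elim i1 i2]

open Classical in
theorem sep_aux.{u} : ∀ (n : ℕ) (X : Type u) (u v : FreeGroup X), u.norm + v.norm = n →
    ¬ IsConj u v → Sep u v := by
  intro n
  induction n using Nat.strong_induction_on with
  | _ n IHn =>
  intro X u v hn huv
  by_cases hex : ∀ x, ex x u = ex x v
  · -- a useful form of the step
    have hstep : ∀ (p : ℕ) (_ : NeZero p) (_ : 1 < p) (φ : X → ZMod p) (x0 : X), φ x0 = 1 →
        Deg φ u = 1 → Deg φ v = 1 →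
        (x0 ∈ u.toWord.map Prod.fst ∨ x0 ∈ v.toWord.map Prod.fst) → Sep u v := by
      intro p _ hp φ x0 h0 hu hv hmem
      rcases hmem with hmem | hmem
      · exact step hp φ x0 h0 u v hu hv hmem huv
          (fun a b hab hcon => IHn (a.norm + b.norm) (by omega) _ a b
            (congrArg₂ (· + ·) (norm_inst _ _ a) (norm_inst _ _ b)) hcon)
      · exact (step hp φ x0 h0 v u hv hu hmem (fun h => huv h.symm)
          (fun a b hab hcon => IHn (a.norm + b.norm) (by omega) _ a b
            (congrArg₂ (· + ·) (norm_inst _ _ a) (norm_inst _ _ b)) hcon)).symm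
    by_cases hA : ∃ x, (x ∈ u.toWord.map Prod.fst ∨ x ∈ v.toWord.map Prod.fst) ∧ ex x u = 1
    · obtain ⟨x, hx, hxe⟩ := hA
      haveI : NeZero 2 := ⟨by norm_num⟩
      let φ : X → ZMod 2 := fun z => if z = x then 1 else 0
      have h1 : φ x = 1 := by simp [φ]
      have h2 : ∀ z, z ≠ x → φ z = 0 := by
        intro z hz
        simp [φ, hz]
      have hd : ∀ w : FreeGroup X, ex x w = 1 → Deg φ w = 1 := by
        intro w hw
        have := Deg_single x φ h1 h2 w
        rw [hw] at this
        simpa using this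
      exact hstep 2 inferInstance (by norm_num) φ x h1 (hd u hxe)
        (hd v (by rw [← hex x]; exact hxe)) hx
    · push_neg at hA
      by_cases hB : ∃ x y, x ≠ y ∧ (x ∈ u.toWord.map Prod.fst ∨ x ∈ v.toWord.map Prod.fst) ∧
          (y ∈ u.toWord.map Prod.fst ∨ y ∈ v.toWord.map Prod.fst)
      · obtain ⟨x, y, hxy, hx, hy⟩ := hB
        have hey : Multiplicative.toAdd (ex y u) ≠ 0 := by
          intro h
          exact hA y hy (by rw [← ofAdd_toAdd (ex y u), h]; rfl)
        obtain ⟨p, hpl, hpp⟩ := Nat.exists_infinite_primes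
          ((Multiplicative.toAdd (ex y u)).natAbs + 2)
        haveI : Fact p.Prime := ⟨hpp⟩
        haveI : NeZero p := ⟨hpp.ne_zero⟩
        set ey : ℤ := Multiplicative.toAdd (ex y u) with hey'
        set e : ℤ := Multiplicative.toAdd (ex x u) with he'
        have hunit : ((ey : ℤ) : ZMod p) ≠ 0 := by
          intro h
          rw [ZMod.intCast_zmod_eq_zero_iff_dvd] at h
          have h1 := Int.natAbs_dvd_natAbs.2 h
          have h2 := Nat.le_of_dvd (Int.natAbs_pos.2 hey) h1
          simp at h2
          omega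
        let φ : X → ZMod p := fun z => if z = x then 1 else
          if z = y then -(e : ZMod p) / (ey : ZMod p) else 0
        have hφx : φ x = 1 := by simp [φ]
        have hφy : φ y = -(e : ZMod p) / (ey : ZMod p) := by
          simp [φ, hxy.symm]
        have hφz : ∀ z, z ≠ x → z ≠ y → φ z = 0 := by
          intro z h1 h2
          simp [φ, h1, h2]
        have hd : ∀ w : FreeGroup X, ex x w = ex x u → ex y w = ex y u → Deg φ w = 1 := by
          intro w h1 h2
          have h3 := Deg_eq φ x y hxy hφz w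
          rw [h1, h2, hφx, hφy, ← hey', ← he'] at h3
          have h4 : (e : ZMod p) * 1 + (ey : ZMod p) * (-(e : ZMod p) / (ey : ZMod p)) = 0 := by
            field_simp
            ring
          rw [h4] at h3
          have h5 : Deg φ w = Multiplicative.ofAdd 0 := by
            rw [← h3, ofAdd_toAdd]
          rw [h5]
          rfl
        exact hstep p inferInstance hpp.one_lt φ x hφx (hd u rfl rfl)
          (hd v (hex x).symm (hex y).symm) hx
      · exfalso
        push_neg at hB
        by_cases hne : ∃ x, x ∈ u.toWord.map Prod.fst ∨ x ∈ v.toWord.map Prod.fst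
        · obtain ⟨x, hx⟩ := hne
          have hall : ∀ y, (y ∈ u.toWord.map Prod.fst ∨ y ∈ v.toWord.map Prod.fst) → y = x := by
            intro y hy
            by_contra hyx
            have := hB y x hyx hy
            rcases hx with hx | hx
            · exact this.1 hx
            · exact this.2 hx
          obtain ⟨a, ha⟩ := word_pow x u.toWord (fun y hy => hall y (Or.inl hy))
          obtain ⟨b, hb⟩ := word_pow x v.toWord (fun y hy => hall y (Or.inr hy))
          rw [FreeGroup.mk_toWord] at ha hb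
          have h1 := hex x
          rw [ha, hb, map_zpow, map_zpow, ex_of_self, ← ofAdd_zsmul, ← ofAdd_zsmul] at h1
          have h2 : a = b := by
            have := congrArg Multiplicative.toAdd h1
            simpa using this
          apply huv
          rw [ha, hb, h2]
        · push_neg at hne
          have hu : u.toWord = [] := by
            by_contra h
            obtain ⟨a, L, hL⟩ := List.exists_cons_of_ne_nil h
            exact (hne a.1).1 (by rw [hL]; simp)
          have hv : v.toWord = [] := by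
            by_contra h
            obtain ⟨a, L, hL⟩ := List.exists_cons_of_ne_nil h
            exact (hne a.1).2 (by rw [hL]; simp)
          apply huv
          rw [FreeGroup.toWord_eq_nil_iff.1 hu, FreeGroup.toWord_eq_nil_iff.1 hv]
  · push_neg at hex
    obtain ⟨x, hx⟩ := hex
    set a : ℤ := Multiplicative.toAdd (ex x u) with ha
    set b : ℤ := Multiplicative.toAdd (ex x v) with hb
    have hab : a ≠ b := by
      intro h
      exact hx (Multiplicative.toAdd.injective h)
    let m : ℕ := (a - b).natAbs + 1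
    haveI : NeZero m := ⟨by omega⟩
    let ψ : FreeGroup X →* Multiplicative (ZMod m) :=
      (AddMonoidHom.toMultiplicative (Int.castAddHom (ZMod m))).comp (ex x)
    refine ⟨Multiplicative (ZMod m), inferInstance, inferInstance, ψ, ?_⟩
    intro hcon
    rw [isConj_iff_eq] at hcon
    have h1 : ((a : ℤ) : ZMod m) = ((b : ℤ) : ZMod m) := congrArg Multiplicative.toAdd hcon
    have h2 : ((a - b : ℤ) : ZMod m) = 0 := by rw [Int.cast_sub, h1, sub_self]
    rw [ZMod.intCast_zmod_eq_zero_iff_dvd] at h2
    have h3 := Int.natAbs_dvd_natAbs.2 h2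
    have h4 := Nat.le_of_dvd (Int.natAbs_pos.2 (sub_ne_zero.2 hab)) h3
    simp only [Int.natAbs_natCast] at h4
    omega

/-- **Free groups are conjugacy separable.** -/
theorem free_conj_sep {X : Type*} (u v : FreeGroup X) (h : ¬ IsConj u v) :
    ∃ (Q : Type) (_ : Group Q) (_ : Finite Q) (ψ : FreeGroup X →* Q),
      ¬ IsConj (ψ u) (ψ v) :=
  sep_aux _ X u v rfl h

end Pool.Agent.H41FC
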